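import Mathlib
import Pool.Agent.H574R3.CS.Stmts

set_option autoImplicit false

namespace Pool.Agent.H574R3.CS

/-- cubing is surjective on a finite field whose order is not `1` modulo `3` -/
theorem cube_surjective (K : Type) [Field K] [Fintype K] (h : Fintype.card K % 3 ≠ 1) :
    Function.Surjective (fun x : K => x ^ 3) := by
  apply Finite.injective_iff_surjective.1
  intro x y hxy
  simp only at hxy
  rcases eq_or_ne y 0 with hy | hy
  · subst hy
    have h0 : x ^ 3 = 0 := by rw [hxy]; ring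
    exact pow_eq_zero_iff (by norm_num) |>.1 h0
  have h3 : Fintype.card K % 3 = 0 ∨ Fintype.card K % 3 = 2 := by omega
  rcases h3 with h3 | h3
  · have hdvd : 3 ∣ Fintype.card K := Nat.dvd_of_mod_eq_zero h3
    haveI : Fact (Nat.Prime 3) := ⟨Nat.prime_three⟩
    obtain ⟨u, hu⟩ := exists_prime_addOrderOf_dvd_card 3 hdvd
    have hu0 : u ≠ 0 := by
      rintro rfl
      simp at hu
    have h30 : (3 : K) = 0 := by
      have h1 : (3 : ℕ) • u = 0 := by rw [← hu]; exact addOrderOf_nsmul_eq_zero u
      rw [nsmul_eq_mul] at h1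
      rcases mul_eq_zero.1 h1 with h2 | h2
      · exact_mod_cast h2
      · exact absurd h2 hu0
    have h4 : (x - y) ^ 3 = 0 := by
      have : (x - y) ^ 3 = x ^ 3 - y ^ 3 - 3 * (x ^ 2 * y - x * y ^ 2) := by ring
      rw [this, hxy, h30]; ring
    have h5 : x - y = 0 := pow_eq_zero_iff (by norm_num) |>.1 h4
    exact sub_eq_zero.1 h5
  · have hu3 : (x / y) ^ 3 = 1 := by
      rw [div_pow, hxy, div_self (pow_ne_zero 3 hy)]
    have hu0 : x / y ≠ 0 := by
      intro h0
      rw [h0] at hu3
      norm_num at hu3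
    have h1 := FiniteField.pow_card_sub_one_eq_one (x / y) hu0
    obtain ⟨m, hm⟩ : ∃ m, Fintype.card K - 1 = 3 * m + 1 := ⟨Fintype.card K / 3, by omega⟩
    rw [hm, pow_succ, pow_mul, hu3, one_pow, one_mul] at h1
    exact (div_eq_one_iff_eq hy).1 h1

theorem taskZ : TaskZ := by
  intro hB K _ _ a b c d k p q hk han
  by_cases hcard : Fintype.card K % 3 = 1
  swap
  · -- cubing is surjective
    have hsurj := cube_surjective K hcard
    obtain ⟨X, Y, hXY, hpq⟩ : ∃ X Y : K, ¬ (X = 0 ∧ Y = 0) ∧ p * X + q * Y = 0 := by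
      by_cases hp : p = 0
      · exact ⟨1, 0, by simp, by simp [hp]⟩
      · exact ⟨-q, p, by simp [hp], by ring⟩
    obtain ⟨Z, hZ⟩ := hsurj (-(a * X ^ 3 + b * (X ^ 2 * Y) + c * (X * Y ^ 2) + d * Y ^ 3) / k)
    simp only at hZ
    have hZ' : k * Z ^ 3 = -(a * X ^ 3 + b * (X ^ 2 * Y) + c * (X * Y ^ 2) + d * Y ^ 3) := by
      rw [hZ]; field_simp
    refine ⟨X, Y, Z, ?_, ?_⟩
    · rintro rfl
      apply hXY
      apply han
      have : k * (0 : K) ^ 3 = 0 := by ring
      rw [this] at hZ'
      have h2 := neg_eq_zero.1 hZ'.symm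
      exact h2
    · have e1 : Z + p * X + q * Y = Z := by
        have : Z + p * X + q * Y = Z + (p * X + q * Y) := by ring
        rw [this, hpq, add_zero]
      rw [e1]
      have : k * Z * Z ^ 2 = k * Z ^ 3 := by ring
      rw [this, hZ']
      ring
  · by_cases hpq : p = 0 ∧ q = 0
    · obtain ⟨rfl, rfl⟩ := hpq
      have ha : a ≠ 0 := by
        rintro rfl
        have := han 1 0 (by ring)
        exact one_ne_zero this.1
      have h3 : (3 : K) ≠ 0 := by
        intro h30
        haveI : Fact (Nat.Prime 3) := ⟨Nat.prime_three⟩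
        have h1 : (3 : ℕ) • (1 : K) = 0 := by
          rw [nsmul_eq_mul]; push_cast; rw [h30]; ring
        have h2 : addOrderOf (1 : K) = 3 :=
          addOrderOf_eq_prime h1 one_ne_zero
        have h4 : addOrderOf (1 : K) ∣ Fintype.card K := addOrderOf_dvd_card
        rw [h2] at h4
        omega
      -- enough: a solution of c₃(X,Y) = - k z³ with (X,Y) ≠ 0
      have key : ∀ X Y z : K, ¬ (X = 0 ∧ Y = 0) →
          a * X ^ 3 + b * (X ^ 2 * Y) + c * (X * Y ^ 2) + d * Y ^ 3 = -k * z ^ 3 →
          ∃ X Y Z : K, Z ≠ 0 ∧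
            a * X ^ 3 + b * (X ^ 2 * Y) + c * (X * Y ^ 2) + d * Y ^ 3 +
              k * Z * (Z + 0 * X + 0 * Y) ^ 2 = 0 := by
        intro X Y z hXY h
        refine ⟨X, Y, z, ?_, ?_⟩
        · rintro rfl
          apply hXY
          apply han
          rw [h]; ring
        · rw [h]; ring
      by_cases hbc : b ^ 2 = 3 * a * c
      · have hδ : ∀ U Y : K, a * (U - b / (3 * a) * Y) ^ 3 + b * ((U - b / (3 * a) * Y) ^ 2 * Y) +
            c * ((U - b / (3 * a) * Y) * Y ^ 2) + d * Y ^ 3 =
            a * U ^ 3 + (d - a * (b / (3 * a)) ^ 3) * Y ^ 3 := by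
          intro U Y
          set e := b / (3 * a) with he
          have hb : b = 3 * a * e := by rw [he]; field_simp
          have hc : c = 3 * a * e ^ 2 := by
            have h1 : 3 * a * c = 3 * a * (3 * a * e ^ 2) := by rw [← hbc, hb]; ring
            exact mul_left_cancel₀ (mul_ne_zero h3 ha) h1
          rw [hb, hc]; ring
        set e := b / (3 * a) with he
        set δ := d - a * e ^ 3 with hδd
        have hδ0 : δ ≠ 0 := by
          intro h0
          have h1 := hδ 0 1
          rw [h0] at h1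
          have h2 := han (0 - e * 1) 1 (by rw [h1]; ring)
          exact one_ne_zero h2.2
        have haδ : a + δ ≠ 0 := by
          intro h0
          have h1 := hδ 1 1
          have h2 := han (1 - e * 1) 1 (by rw [h1]; linear_combination h0)
          exact one_ne_zero h2.2
        obtain ⟨x, z, hxz⟩ := hB K hcard (a + δ) (3 * δ) (3 * δ) δ (-k) 0 0 0 haδ
          (neg_ne_zero.2 hk) (by
            intro h
            have h1 : (3 : K) * 3 * (a * δ) = 0 := by linear_combination -h
            have h2 : (3 : K) * 3 * (a * δ) ≠ 0 :=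
              mul_ne_zero (mul_ne_zero h3 h3) (mul_ne_zero ha hδ0)
            exact h2 h1)
        refine key (x - e * (x + 1)) (x + 1) z ?_ ?_
        · rintro ⟨h1, h2⟩
          rw [h2] at h1
          have h3' : x = 0 := by linear_combination h1
          rw [h3'] at h2
          exact one_ne_zero (by linear_combination h2)
        · rw [hδ x (x + 1)]
          linear_combination hxz
      · obtain ⟨x, z, hxz⟩ := hB K hcard a b c d (-k) 0 0 0 ha (neg_ne_zero.2 hk) hbc
        refine key x 1 z (by simp) ?_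
        linear_combination hxz
    · -- (p, q) ≠ 0
      obtain ⟨u1, u2, v1, v2, hu, hv, hv0⟩ : ∃ u1 u2 v1 v2 : K, p * u1 + q * u2 = 1 ∧
          p * v1 + q * v2 = 0 ∧ ¬ (v1 = 0 ∧ v2 = 0) := by
        by_cases hp : p = 0
        · have hq : q ≠ 0 := fun hq => hpq ⟨hp, hq⟩
          exact ⟨0, q⁻¹, 1, 0, by field_simp; simp, by simp [hp], by simp⟩
        · exact ⟨p⁻¹, 0, -q, p, by field_simp; simp, by ring, by simp [hp]⟩
      have ha' : a * v1 ^ 3 + b * (v1 ^ 2 * v2) + c * (v1 * v2 ^ 2) + d * v2 ^ 3 ≠ 0 :=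
        fun h => hv0 (han v1 v2 h)
      obtain ⟨z, t, hzt⟩ := hB K hcard (-k) (-2 * k) (-k) 0
        (a * v1 ^ 3 + b * (v1 ^ 2 * v2) + c * (v1 * v2 ^ 2) + d * v2 ^ 3)
        (3 * a * u1 * v1 ^ 2 + b * (u2 * v1 ^ 2 + 2 * u1 * v1 * v2) +
          c * (u1 * v2 ^ 2 + 2 * u2 * v1 * v2) + 3 * d * u2 * v2 ^ 2)
        (3 * a * u1 ^ 2 * v1 + b * (u1 ^ 2 * v2 + 2 * u1 * u2 * v1) +
          c * (u2 ^ 2 * v1 + 2 * u1 * u2 * v2) + 3 * d * u2 ^ 2 * v2)
        (a * u1 ^ 3 + b * (u1 ^ 2 * u2) + c * (u1 * u2 ^ 2) + d * u2 ^ 3)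
        (neg_ne_zero.2 hk) ha' (by
          intro h
          have h1 : k ^ 2 = 0 := by linear_combination h
          exact hk (pow_eq_zero_iff (by norm_num) |>.1 h1))
      have hform : p * (u1 + t * v1) + q * (u2 + t * v2) = 1 := by
        linear_combination hu + t * hv
      refine ⟨u1 + t * v1, u2 + t * v2, z, ?_, ?_⟩
      · rintro rfl
        have h1 : a * (u1 + t * v1) ^ 3 + b * ((u1 + t * v1) ^ 2 * (u2 + t * v2)) +
            c * ((u1 + t * v1) * (u2 + t * v2) ^ 2) + d * (u2 + t * v2) ^ 3 = 0 := by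
          linear_combination -hzt
        have h2 := han _ _ h1
        rw [h2.1, h2.2] at hform
        simp at hform
      · have e1 : z + p * (u1 + t * v1) + q * (u2 + t * v2) = z + 1 := by
          linear_combination hform
        rw [e1]
        linear_combination -hzt

end Pool.Agent.H574R3.CS
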